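import Pool.Agent.Helper64.RFn.GoalsV

/-! # Project RFn, packet CMPn: a metric is uniformly equivalent to the round one -/

set_option autoImplicit false

open MeasureTheory Set Matrix

namespace Pool.Agent.Helper5.RFn

open Pool.Agent.Helper64.RFn
open Pool.Agent.Helper47.RFn (EE MF pd Hom0 Sm IsMetric cyl Chr Rup Rm ip gvol)

theorem ip_eq_dot {n : ℕ} (G : MF n) (x : EE n) (v : Fin (n + 1) → ℝ) :
    ip G x v v = v ⬝ᵥ (G x *ᵥ v) := by
  unfold ip
  simp only [dotProduct, mulVec]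
  refine Finset.sum_congr rfl fun i _ => ?_
  rw [Finset.mul_sum]
  exact Finset.sum_congr rfl fun j _ => by ring

theorem ip_pos {n : ℕ} (G : MF n) (hG : IsMetric G) (x : EE n) (v : Fin (n + 1) → ℝ)
    (hv : v ≠ 0) : 0 < ip G x v v := by
  rw [ip_eq_dot]
  have h := (hG.pos x).dotProduct_mulVec_pos hv
  simpa using h

theorem ip_smul {n : ℕ} (G : MF n) (x : EE n) (c : ℝ) (v : Fin (n + 1) → ℝ) :
    ip G x (fun i => c * v i) (fun i => c * v i) = c ^ 2 * ip G x v v := by
  unfold ip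
  rw [Finset.mul_sum]
  refine Finset.sum_congr rfl fun i _ => ?_
  rw [Finset.mul_sum]
  exact Finset.sum_congr rfl fun j _ => by ring

theorem cmpn : CMPn := by
  intro n G hG
  set f : EE n × EE n → ℝ := fun p => ip G p.1 (fun i => p.2 i) (fun i => p.2 i) with hf
  have hK : IsCompact (Metric.sphere (0 : EE n) 1 ×ˢ Metric.sphere (0 : EE n) 1) :=
    (isCompact_sphere _ _).prod (isCompact_sphere _ _)
  have he : (EuclideanSpace.single (0 : Fin (n + 1)) (1 : ℝ) : EE n) ∈ Metric.sphere (0 : EE n) 1 := by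
    rw [mem_sphere_zero_iff_norm]
    simp
  have hc : ContinuousOn f (Metric.sphere (0 : EE n) 1 ×ˢ Metric.sphere (0 : EE n) 1) := by
    have hG' : ∀ i j, ContinuousOn (fun p : EE n × EE n => G p.1 i j)
        (Metric.sphere (0 : EE n) 1 ×ˢ Metric.sphere (0 : EE n) 1) := by
      intro i j
      refine (hG.sm i j).cd.continuousOn.comp continuous_fst.continuousOn ?_
      rintro p ⟨hp, -⟩ h0
      rw [mem_sphere_zero_iff_norm] at hp
      rw [mem_singleton_iff] at h0
      rw [h0, norm_zero] at hp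
      exact zero_ne_one hp
    have hv : ∀ i, Continuous (fun p : EE n × EE n => p.2 i) := fun i => by fun_prop
    rw [hf]
    unfold ip
    refine continuousOn_finsetSum _ fun i _ => continuousOn_finsetSum _ fun j _ => ?_
    exact ((hG' i j).mul (hv i).continuousOn).mul (hv j).continuousOn
  obtain ⟨p, hp, hmin⟩ := hK.exists_isMinOn ⟨_, mk_mem_prod he he⟩ hc
  obtain ⟨q, hq, hmax⟩ := hK.exists_isMaxOn ⟨_, mk_mem_prod he he⟩ hc
  have hpos : ∀ r ∈ Metric.sphere (0 : EE n) 1 ×ˢ Metric.sphere (0 : EE n) 1, 0 < f r := by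
    rintro r ⟨-, hr⟩
    apply ip_pos G hG
    intro h0
    rw [mem_sphere_zero_iff_norm] at hr
    have : r.2 = 0 := by
      ext i
      exact congrFun h0 i
    rw [this, norm_zero] at hr
    exact zero_ne_one hr
  refine ⟨f p, f q, hpos p hp, hpos q hq, fun x hx v => ?_⟩
  by_cases hv : v = 0
  · subst hv
    simp [ip]
  · set w : EE n := WithLp.toLp 2 v with hw
    have hw0 : w ≠ 0 := by
      intro h0
      apply hv
      funext i
      have := congrArg (fun u : EE n => u i) h0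
      simpa [hw] using this
    have hn : 0 < ‖w‖ := norm_pos_iff.2 hw0
    have hsq : ∑ i, v i ^ 2 = ‖w‖ ^ 2 := by
      rw [EuclideanSpace.norm_sq_eq]
      simp [hw]
    have hu : (‖w‖⁻¹ • w) ∈ Metric.sphere (0 : EE n) 1 := by
      rw [mem_sphere_zero_iff_norm, norm_smul, norm_inv, norm_norm, inv_mul_cancel₀ hn.ne']
    have hxs : x ∈ Metric.sphere (0 : EE n) 1 := by rwa [mem_sphere_zero_iff_norm]
    have h1 : f p ≤ f (x, ‖w‖⁻¹ • w) := hmin (mk_mem_prod hxs hu)
    have h2 : f (x, ‖w‖⁻¹ • w) ≤ f q := hmax (mk_mem_prod hxs hu)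
    have h3 : f (x, ‖w‖⁻¹ • w) = ‖w‖⁻¹ ^ 2 * ip G x v v := ip_smul G x ‖w‖⁻¹ v
    have h4 : ip G x v v = f (x, ‖w‖⁻¹ • w) * ‖w‖ ^ 2 := by
      rw [h3]
      field_simp
    rw [h4, hsq]
    exact ⟨mul_le_mul_of_nonneg_right h1 (sq_nonneg _),
      mul_le_mul_of_nonneg_right h2 (sq_nonneg _)⟩

end Pool.Agent.Helper5.RFn
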