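import Pool.Agent.Helper64.RFn.GoalsL

/-! # Project RFn, packet CYCn: Christoffel symbols of the cylinder metric -/

set_option autoImplicit false

open MeasureTheory Set Matrix

namespace Pool.Agent.Helper5.RFn

open Pool.Agent.Helper64.RFn
open Pool.Agent.Helper47.RFn (EE MF pd Hom0 Sm IsMetric cyl Chr Rup Rm ip gvol)

variable {n : ℕ}

theorem inner_single (x : EE n) (i : Fin (n + 1)) :
    inner ℝ x (EuclideanSpace.single i (1 : ℝ)) = x i := by
  rw [EuclideanSpace.inner_single_right]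
  simp

theorem hasFDerivAt_inv_nsq (x : EE n) (hx : x ≠ 0) :
    HasFDerivAt (fun y : EE n => (‖y‖ ^ 2)⁻¹)
      (-((‖x‖ ^ 2) ^ 2)⁻¹ • ((2 : ℝ) • innerSL ℝ x)) x := by
  have h1 : HasFDerivAt (fun y : EE n => ‖y‖ ^ 2) ((2 : ℝ) • innerSL ℝ x) x := by
    have h := (hasStrictFDerivAt_norm_sq x).hasFDerivAt
    have e : ((2 : ℝ) • innerSL ℝ x) = (2 : ℕ) • innerSL ℝ x := by
      rw [← Nat.cast_smul_eq_nsmul ℝ]
      norm_num
    rw [e]
    exact h
  have h2 : (‖x‖ ^ 2 : ℝ) ≠ 0 := by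
    have := norm_pos_iff.2 hx
    positivity
  exact (hasDerivAt_inv h2).comp_hasFDerivAt x h1

theorem pd_cyl (G : MF n) (hG : IsMetric G) (i j k : Fin (n + 1)) (x : EE n) (hx : x ≠ 0) :
    pd i (fun y => cyl G y j k) x = (‖x‖ ^ 2)⁻¹ * pd i (fun y => G y j k) x
      - 2 * x i / (‖x‖ ^ 2) ^ 2 * G x j k := by
  have h0 : ({0}ᶜ : Set (EE n)) ∈ nhds x := isOpen_compl_singleton.mem_nhds hx
  have h1 : DifferentiableAt ℝ (fun y => G y j k) x :=
    (((hG.sm j k).cd.contDiffAt h0).differentiableAt (by simp))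
  have h2 := hasFDerivAt_inv_nsq x hx
  have h3 := h2.mul h1.hasFDerivAt
  have h4 : (fun y => cyl G y j k) = fun y : EE n => (‖y‖ ^ 2)⁻¹ * G y j k := by
    funext y
    simp [cyl]
  unfold pd
  rw [h4]
  rw [show (fun y : EE n => (‖y‖ ^ 2)⁻¹ * G y j k) =
    (fun y : EE n => (‖y‖ ^ 2)⁻¹) * (fun y => G y j k) from rfl, h3.fderiv]
  simp only [_root_.add_apply, _root_.smul_apply, innerSL_apply_apply,
    inner_single, smul_eq_mul]
  field_simp
  ring

theorem symm_of (G : MF n) (hG : IsMetric G) (x : EE n) (i j : Fin (n + 1)) :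
    G x i j = G x j i := by
  have h := (hG.pos x).isHermitian.apply j i
  simpa using h

theorem cycn : CYCn := by
  intro n G hG i j k x hx
  have hs : (‖x‖ ^ 2 : ℝ) ≠ 0 := by
    have := norm_pos_iff.2 hx
    positivity
  have hdet : IsUnit (G x).det := (hG.pos x).det_pos.ne'.isUnit
  have hinv : (cyl G x)⁻¹ = (‖x‖ ^ 2) • (G x)⁻¹ := by
    apply Matrix.inv_eq_left_inv
    unfold cyl
    rw [Matrix.smul_mul, Matrix.mul_smul, Matrix.nonsing_inv_mul _ hdet, smul_smul,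
      mul_inv_cancel₀ hs, one_smul]
  have hGG : ∀ a b, ∑ l, (G x)⁻¹ a l * G x l b = if a = b then 1 else 0 := by
    intro a b
    have h := congrFun (congrFun (Matrix.nonsing_inv_mul (G x) hdet) a) b
    rw [Matrix.mul_apply, Matrix.one_apply] at h
    exact h
  have hGx : ∀ a, ∑ l, (G x)⁻¹ a l * x l = x a := by
    intro a
    have h1 : ∀ l, x l = ∑ b, G x l b * x b := fun l => (hG.rad x l).symm
    calc ∑ l, (G x)⁻¹ a l * x l = ∑ l, ∑ b, (G x)⁻¹ a l * G x l b * x b := by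
          refine Finset.sum_congr rfl fun l _ => ?_
          conv_lhs => rw [h1 l]
          rw [Finset.mul_sum]
          exact Finset.sum_congr rfl fun b _ => by ring
      _ = ∑ b, (∑ l, (G x)⁻¹ a l * G x l b) * x b := by
          rw [Finset.sum_comm]
          exact Finset.sum_congr rfl fun b _ => by rw [Finset.sum_mul]
      _ = x a := by simp [hGG]
  unfold Chr
  rw [hinv]
  simp only [pd_cyl G hG _ _ _ x hx, Matrix.smul_apply, smul_eq_mul]
  have e1 : ∀ l, ‖x‖ ^ 2 * (G x)⁻¹ k l *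
      ((‖x‖ ^ 2)⁻¹ * pd i (fun y => G y j l) x - 2 * x i / (‖x‖ ^ 2) ^ 2 * G x j l +
        ((‖x‖ ^ 2)⁻¹ * pd j (fun y => G y i l) x - 2 * x j / (‖x‖ ^ 2) ^ 2 * G x i l) -
        ((‖x‖ ^ 2)⁻¹ * pd l (fun y => G y i j) x - 2 * x l / (‖x‖ ^ 2) ^ 2 * G x i j)) =
      (G x)⁻¹ k l * (pd i (fun y => G y j l) x + pd j (fun y => G y i l) x -
        pd l (fun y => G y i j) x) -
      2 / ‖x‖ ^ 2 * (x i * ((G x)⁻¹ k l * G x l j) + x j * ((G x)⁻¹ k l * G x l i) -
        G x i j * ((G x)⁻¹ k l * x l)) := by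
    intro l
    rw [symm_of G hG x j l, symm_of G hG x i l]
    field_simp
    ring
  simp only [e1]
  rw [Finset.sum_sub_distrib, ← Finset.mul_sum, Finset.sum_sub_distrib, Finset.sum_add_distrib,
    ← Finset.mul_sum, ← Finset.mul_sum, ← Finset.mul_sum, hGG, hGG, hGx]
  have e2 : (if k = j then (1 : ℝ) else 0) = if j = k then 1 else 0 := by simp [eq_comm]
  have e3 : (if k = i then (1 : ℝ) else 0) = if i = k then 1 else 0 := by simp [eq_comm]
  rw [e2, e3]
  ring

end Pool.Agent.Helper5.RFn
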