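import Pool.Agent.Helper47.RFn.GoalsB

/-! # Project RFn, packet CA: heat operator on the derivatives of the curvature
(adapted from helper37's packet CA in dimension 3) -/

set_option autoImplicit false

open Finset

namespace Pool.Agent.Helper5.RFn

open Pool.Agent.Helper47.RFn

variable {n : ℕ} {T : ℝ} (F : FB n T)

/-- the span of the derivatives of order `m` -/
noncomputable def GG (m : ℕ) : Submodule ℝ F.B := Submodule.span ℝ (F.Gset m)

/-- the span of the products of total order `m` -/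
noncomputable def SS (m : ℕ) : Submodule ℝ F.B :=
  Submodule.span ℝ {y | ∃ k l : ℕ, k + l = m ∧ ∃ a ∈ F.Gset k, ∃ b ∈ F.Gset l, y = a * b}

lemma mem_GG {m : ℕ} {x : F.B} (hx : x ∈ F.Gset m) : x ∈ GG F m := Submodule.subset_span hx

lemma H_Gset {m : ℕ} {x : F.B} (hx : x ∈ F.Gset m) (a : Ix n) : F.H a x ∈ F.Gset (m + 1) := by
  obtain ⟨w, i, j, k, l, hw, rfl⟩ := hx
  exact ⟨a :: w, i, j, k, l, by simp [hw], rfl⟩

lemma H_GG {m : ℕ} {x : F.B} (hx : x ∈ GG F m) (a : Ix n) : F.H a x ∈ GG F (m + 1) := by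
  unfold GG at hx ⊢
  induction hx using Submodule.span_induction with
  | mem x h => exact Submodule.subset_span (H_Gset F h a)
  | zero => simp
  | add x y _ _ hx hy => rw [map_add]; exact Submodule.add_mem _ hx hy
  | smul c x _ hx => rw [Derivation.map_smul]; exact Submodule.smul_mem _ c hx

lemma R_Gset (a b c d : Ix n) : F.R a b c d ∈ F.Gset 0 := ⟨[], a, b, c, d, rfl, rfl⟩

lemma R_GG (a b c d : Ix n) : F.R a b c d ∈ GG F 0 := mem_GG F (R_Gset F a b c d)

lemma dl_GG {m : ℕ} {x : F.B} (hx : x ∈ GG F m) (a b : Ix n) : F.dl a b * x ∈ GG F m := by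
  unfold FB.dl
  split_ifs
  · rwa [one_mul]
  · rw [zero_mul]
    exact Submodule.zero_mem _

lemma V_Gset (hF : F.Full) {m : ℕ} : ∀ {x : F.B}, x ∈ F.Gset m → ∀ k l : Ix n,
    F.V k l x ∈ GG F m := by
  induction m with
  | zero =>
    intro x hx k l
    obtain ⟨w, a, b, c, d, hw, rfl⟩ := hx
    have : w = [] := List.length_eq_zero_iff.mp hw
    subst this
    change F.V k l (F.R a b c d) ∈ _
    rw [hF.VR]
    have h := fun (i j p q r s : Ix n) => dl_GG F (R_GG F p q r s) i j
    exact Submodule.sub_mem _ (Submodule.add_mem _ (Submodule.sub_mem _ (Submodule.add_mem _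
      (Submodule.sub_mem _ (Submodule.add_mem _ (Submodule.sub_mem _ (h _ _ _ _ _ _)
      (h _ _ _ _ _ _)) (h _ _ _ _ _ _)) (h _ _ _ _ _ _)) (h _ _ _ _ _ _)) (h _ _ _ _ _ _))
      (h _ _ _ _ _ _)) (h _ _ _ _ _ _)
  | succ m ih =>
    intro x hx k l
    obtain ⟨w, a, b, c, d, hw, rfl⟩ := hx
    cases w with
    | nil => simp at hw
    | cons e w =>
      have hw' : w.length = m := by simpa using hw
      have hx' : F.Hw w (F.R a b c d) ∈ F.Gset m := ⟨w, a, b, c, d, hw', rfl⟩
      change F.V k l (F.H e (F.Hw w (F.R a b c d))) ∈ _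
      generalize F.Hw w (F.R a b c d) = y at hx' ⊢
      have h1 : F.V k l (F.H e y) = F.H e (F.V k l y)
          + (F.dl l e * F.H k y - F.dl k e * F.H l y) := by
        rw [← hF.VH]; ring
      rw [h1]
      exact Submodule.add_mem _ (H_GG F (ih hx' k l) e)
        (Submodule.sub_mem _ (dl_GG F (mem_GG F (H_Gset F hx' k)) _ _)
          (dl_GG F (mem_GG F (H_Gset F hx' l)) _ _))

lemma mul_SS {k l : ℕ} {x y : F.B} (hx : x ∈ GG F k) (hy : y ∈ GG F l) :
    x * y ∈ SS F (k + l) := by
  unfold GG at hx hy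
  unfold SS
  have h := Submodule.mul_mem_mul hx hy
  rw [Submodule.span_mul_span] at h
  refine Submodule.span_mono ?_ h
  rintro z ⟨a, ha, b, hb, rfl⟩
  exact ⟨k, l, rfl, a, ha, b, hb, rfl⟩

lemma mul_SS' {k l m : ℕ} (hm : k + l = m) {x y : F.B} (hx : x ∈ GG F k) (hy : y ∈ GG F l) :
    x * y ∈ SS F m := by
  subst hm; exact mul_SS F hx hy

lemma RR_SS (a b c d a' b' c' d' : Ix n) : F.R a b c d * F.R a' b' c' d' ∈ SS F 0 :=
  mul_SS' F (k := 0) (l := 0) (add_zero 0) (R_GG F _ _ _ _) (R_GG F _ _ _ _)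

lemma QR_SS (a b c d : Ix n) : F.QR a b c d ∈ SS F 0 := by
  unfold FB.QR
  exact Submodule.sum_mem _ fun e _ => Submodule.sum_mem _ fun f _ =>
    Submodule.sub_mem _ (Submodule.add_mem _ (Submodule.sub_mem _ (RR_SS F _ _ _ _ _ _ _ _)
      (RR_SS F _ _ _ _ _ _ _ _)) (RR_SS F _ _ _ _ _ _ _ _)) (RR_SS F _ _ _ _ _ _ _ _)

lemma H_SS {m : ℕ} {x : F.B} (hx : x ∈ SS F m) (a : Ix n) : F.H a x ∈ SS F (m + 1) := by
  unfold SS at hx
  induction hx using Submodule.span_induction with
  | mem x h =>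
    obtain ⟨k, l, hkl, u, hu, v, hv, rfl⟩ := h
    rw [Derivation.leibniz, smul_eq_mul, smul_eq_mul]
    refine Submodule.add_mem _ ?_ ?_
    · exact mul_SS' F (by omega) (mem_GG F hu) (mem_GG F (H_Gset F hv a))
    · exact mul_SS' F (by omega) (mem_GG F hv) (mem_GG F (H_Gset F hu a))
  | zero => simp
  | add x y _ _ hx hy =>
    rw [map_add]
    exact Submodule.add_mem _ hx hy
  | smul c x _ hx => rw [Derivation.map_smul]; exact Submodule.smul_mem _ c hx

lemma Ric_GG (i j : Ix n) : F.Ric i j ∈ GG F 0 := by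
  unfold FB.Ric
  exact Submodule.sum_mem _ fun b _ => R_GG F _ _ _ _

lemma Y_GG (hR : F.IsRF) (a c d : Ix n) : F.Y a c d ∈ GG F 1 := by
  unfold FB.Y
  rw [hR, hR]
  exact Submodule.sub_mem _ (H_GG F (Ric_GG F a c) d) (H_GG F (Ric_GG F a d) c)

lemma comm_SS (hF : F.Full) {m : ℕ} {y : F.B} (hy : y ∈ F.Gset m) (a b : Ix n) :
    F.H a (F.H b y) - F.H b (F.H a y) ∈ SS F m := by
  rw [hF.HH]
  exact Submodule.smul_mem _ _ (Submodule.sum_mem _ fun i _ => Submodule.sum_mem _ fun j _ =>
    mul_SS' F (by omega) (R_GG F _ _ _ _) (V_Gset F hF hy i j))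

/-- PACKET CA. -/
theorem goal_CA' (hEVM : Goal_EVM) : Goal_CA := by
  intro n T F hF hR m
  have key : ∀ m : ℕ, ∀ x ∈ F.Gset m, F.Hop x ∈ SS F m := by
    intro m
    induction m with
    | zero =>
      intro x hx
      obtain ⟨w, a, b, c, d, hw, rfl⟩ := hx
      have : w = [] := List.length_eq_zero_iff.mp hw
      subst this
      change F.Hop (F.R a b c d) ∈ _
      rw [hEVM n T F hF hR a b c d]
      exact Submodule.smul_mem _ _ (QR_SS F a b c d)
    | succ m ih =>
      intro x hx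
      obtain ⟨w, i, j, k, l, hw, rfl⟩ := hx
      cases w with
      | nil => simp at hw
      | cons a w =>
        have hw' : w.length = m := by simpa using hw
        have hx' : F.Hw w (F.R i j k l) ∈ F.Gset m := ⟨w, i, j, k, l, hw', rfl⟩
        change F.Hop (F.H a (F.Hw w (F.R i j k l))) ∈ _
        generalize F.Hw w (F.R i j k l) = y at hx' ⊢
        have hy := mem_GG F hx'
        have hD := hF.DHY a y
        have hL : F.Lap (F.H a y) = F.H a (F.Lap y)
            + ∑ b, (F.H b (F.H b (F.H a y) - F.H a (F.H b y))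
              + (F.H b (F.H a (F.H b y)) - F.H a (F.H b (F.H b y)))) := by
          unfold FB.Lap
          rw [map_sum, ← Finset.sum_add_distrib]
          refine Finset.sum_congr rfl fun b _ => ?_
          rw [map_sub]; ring
        have hE : F.Hop (F.H a y) = F.H a (F.Hop y)
            + (∑ b, F.S a b * F.H b y + (1 / 2 : ℝ) • ∑ c, ∑ d, F.Y a c d * F.V c d y)
            - ∑ b, (F.H b (F.H b (F.H a y) - F.H a (F.H b y))
              + (F.H b (F.H a (F.H b y)) - F.H a (F.H b (F.H b y)))) := by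
          unfold FB.Hop
          rw [hD, hL, map_sub]; ring
        rw [hE]
        refine Submodule.sub_mem _ (Submodule.add_mem _ (H_SS F (ih y hx') a)
          (Submodule.add_mem _ ?_ ?_)) ?_
        · refine Submodule.sum_mem _ fun b _ => ?_
          rw [hR]
          exact mul_SS' F (by omega) (Ric_GG F a b) (H_GG F hy b)
        · refine Submodule.smul_mem _ _ (Submodule.sum_mem _ fun c _ =>
            Submodule.sum_mem _ fun d _ => ?_)
          exact mul_SS' F (by omega) (Y_GG F hR a c d) (V_Gset F hF hx' c d)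
        · refine Submodule.sum_mem _ fun b _ => Submodule.add_mem _ ?_ ?_
          · exact H_SS F (comm_SS F hF hx' b a) b
          · exact comm_SS F hF (H_Gset F hx' b) b a
  exact key m

/-- PACKET CA, with the hypotheses of the packet text. -/
theorem goal_CA (hEVM : Goal_EVM) (_hRIC : Goal_RIC) (_hPRD : Goal_PRD) : Goal_CA := goal_CA' hEVM

end Pool.Agent.Helper5.RFn
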